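import Pool.Agent.helper76.UF.Spec

set_option autoImplicit false

namespace Pool.Agent.UF

open Finset Polynomial NumberField

private theorem IRR_ff {R : Type} [CommRing R] (x : R) : ff 2 x 1 = 2 - x := by
  simp [ff]

private theorem IRR_prime {m : ℕ} (hm : m < 4) : (fer m).Prime := by
  unfold fer
  interval_cases m <;> norm_num

private theorem IRR_bar {R : Type} [CommRing R] {m : ℕ} {x : R} (b : R ≃+* R) (hb : b x * x = 1)
    (hx : x ^ (2 ^ m) = -1) : b x = x ^ (2 ^ (m + 1) - 1) := by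
  have h1 : x ^ (2 ^ (m + 1)) = 1 := by
    rw [pow_succ, pow_mul, hx]
    norm_num
  have h2 : x ^ (2 ^ (m + 1) - 1) * x = 1 := by
    rw [← pow_succ, Nat.sub_add_cancel Nat.one_le_two_pow, h1]
  calc b x = b x * (x ^ (2 ^ (m + 1) - 1) * x) := by rw [h2, mul_one]
    _ = (b x * x) * x ^ (2 ^ (m + 1) - 1) := by ring
    _ = x ^ (2 ^ (m + 1) - 1) := by rw [hb, one_mul]

private theorem IRR_cop (h3 : CPR_stmt) {R : Type} [CommRing R] {m : ℕ} (hm : 4 ≤ m) {x : R}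
    (b : R ≃+* R) (hb : b x * x = 1) (hx : x ^ (2 ^ m) = -1) : IsCoprime (2 - x) (2 - b x) := by
  have h5 : (2 : ℕ) ^ 5 ≤ 2 ^ (m + 1) := Nat.pow_le_pow_right (by norm_num) (by omega)
  have hodd : Odd (2 ^ (m + 1) - 1) := by
    refine ⟨2 ^ m - 1, ?_⟩
    have h6 : (2 : ℕ) ^ (m + 1) = 2 * 2 ^ m := by rw [pow_succ]; ring
    have h7 : 1 ≤ (2 : ℕ) ^ m := Nat.one_le_two_pow
    omega
  have h1 := h3 m 0 R x hx 1 (2 ^ (m + 1) - 1) odd_one hodd (by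
    intro hdvd
    have hc : ((2 ^ (m + 1) - 1 : ℕ) : ℤ) = 2 ^ (m + 1) - 1 := by
      rw [Nat.cast_sub Nat.one_le_two_pow]
      push_cast
      rfl
    rw [hc] at hdvd
    have h8 : (2 : ℤ) ^ (m + 1) ∣ 2 := by
      have h9 : (2 : ℤ) = (((1 : ℕ) : ℤ) - (2 ^ (m + 1) - 1)) + 2 ^ (m + 1) := by
        push_cast
        ring
      rw [h9]
      have h10 := dvd_add hdvd (dvd_refl ((2 : ℤ) ^ (m + 1)))
      rwa [← h9] at h10 ⊢
    have h9 := Int.le_of_dvd (by norm_num) h8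
    have h10 : ((2 : ℤ)) ^ (m + 1) = ((2 ^ (m + 1) : ℕ) : ℤ) := by push_cast; rfl
    rw [h10] at h9
    omega)
  have e1 : ff (2 ^ (2 ^ 0)) x 1 = 2 - x := by
    simp [ff]
  have e2 : ff (2 ^ (2 ^ 0)) x (2 ^ (m + 1) - 1) = 2 - b x := by
    rw [IRR_bar b hb hx]
    simp [ff]
  rwa [e1, e2] at h1

theorem IRR (h1 : BAS_stmt) (h2 : BIN_stmt) (h3 : CPR_stmt) (h4 : QUK_stmt) (h5 : QUO_stmt)
    (h6 : U_stmt) : IRR_stmt := by
  intro m K _ _ _ z hz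
  have hcyc : Cyc (2 ^ m) z := h1 m K z hz
  obtain ⟨hQ1, hQ2⟩ := h4 (2 ^ m) 1 2 (𝓞 K) z Nat.one_le_two_pow le_rfl (by rwa [one_mul])
  rw [IRR_ff] at hQ1 hQ2
  have hF : (2 ^ (2 ^ m) + 1 : ℕ) = fer m := rfl
  rw [hF] at hQ1 hQ2
  have hF3 : 3 ≤ fer m := by
    have h7 : (2 : ℕ) ^ 1 ≤ 2 ^ (2 ^ m) := Nat.pow_le_pow_right (by norm_num) Nat.one_le_two_pow
    unfold fer
    omega
  have hF0 : ((fer m : ℕ) : 𝓞 K) ≠ 0 := by
    rw [Nat.cast_ne_zero]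
    omega
  have hne : (2 - z : 𝓞 K) ≠ 0 := by
    intro h0
    rw [h0, zero_dvd_iff] at hQ2
    exact hF0 hQ2
  have hnu : ¬ IsUnit (2 - z : 𝓞 K) := by
    intro hu
    have h7 : (2 - z : 𝓞 K) ∣ ((1 : ℤ) : 𝓞 K) := by
      rw [Int.cast_one]
      exact hu.dvd
    have h8 := Int.le_of_dvd one_pos (hQ1 1 h7)
    omega
  by_cases hm : m < 4
  · -- the Fermat number is prime
    apply Prime.irreducible
    refine ⟨hne, hnu, fun u v huv => ?_⟩
    obtain ⟨n1, hn1⟩ := h5 (2 ^ m) 2 (𝓞 K) z hcyc u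
    obtain ⟨n2, hn2⟩ := h5 (2 ^ m) 2 (𝓞 K) z hcyc v
    rw [IRR_ff] at hn1 hn2
    have h7 : (2 - z : 𝓞 K) ∣ ((n1 * n2 : ℤ) : 𝓞 K) := by
      have h8 : ((n1 * n2 : ℤ) : 𝓞 K) = u * v - u * (v - (n2 : 𝓞 K)) - (n2 : 𝓞 K) * (u - (n1 : 𝓞 K)) := by
        push_cast
        ring
      rw [h8]
      exact dvd_sub (dvd_sub huv (hn2.mul_left u)) (hn1.mul_left _)
    have h8 := hQ1 _ h7
    have hp : Prime ((fer m : ℕ) : ℤ) := Nat.prime_iff_prime_int.mp (IRR_prime hm)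
    have key : ∀ (n : ℤ) (w : 𝓞 K), ((fer m : ℕ) : ℤ) ∣ n → (2 - z : 𝓞 K) ∣ w - (n : 𝓞 K) →
        (2 - z : 𝓞 K) ∣ w := by
      intro n w hn hw
      have h9 : (2 - z : 𝓞 K) ∣ (n : 𝓞 K) := by
        refine hQ2.trans ?_
        obtain ⟨k, hk⟩ := hn
        refine ⟨(k : 𝓞 K), ?_⟩
        rw [hk]
        push_cast
        ring
      have h10 := dvd_add hw h9
      rwa [sub_add_cancel] at h10
    rcases hp.dvd_or_dvd h8 with h9 | h9
    · exact Or.inl (key n1 u h9 hn1)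
    · exact Or.inr (key n2 v h9 hn2)
  · have hm4 : 4 ≤ m := by omega
    refine ⟨hnu, fun {δ ε} hde => ?_⟩
    obtain ⟨b, hb, -⟩ := h2 (2 ^ m) (𝓞 K) z Nat.one_le_two_pow hcyc
    have hδ : δ ≠ 0 := by
      rintro rfl
      rw [zero_mul] at hde
      exact hne hde
    have hε : ε ≠ 0 := by
      rintro rfl
      rw [mul_zero] at hde
      exact hne hde
    have hbδ : b δ ≠ 0 := by
      intro h0
      apply hδ
      have h7 := congrArg b h0
      rwa [hb.2, map_zero] at h7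
    have hbf : b (2 - z) = 2 - b z := by
      rw [map_sub, map_ofNat]
    have hbde : b δ * b ε = 2 - b z := by
      rw [← map_mul, ← hde, hbf]
    obtain ⟨c, hc⟩ := hcyc.2.1 (b δ * ε)
    have hρ : (b δ * ε) * b (b δ * ε) = (2 - z) * (2 - b z) := by
      rw [map_mul, hb.2, ← hbde, hde]
      ring
    obtain ⟨j, hj⟩ := h6 m (𝓞 K) z b hm4 hcyc.1 hb c (b δ * ε) hc hρ
    have hcop := IRR_cop h3 hm4 b hb.1 hcyc.1.1
    rcases hj with hj | hj
    · -- `b δ = z ^ j * δ`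
      left
      have h7 : b δ = z ^ j * δ := by
        apply mul_right_cancel₀ hε
        rw [hj, hde]
        ring
      refine hcop.isUnit_of_dvd' ⟨ε, hde⟩ ?_
      have h8 : δ ∣ b δ := ⟨z ^ j, by rw [h7]; ring⟩
      exact h8.trans ⟨b ε, hbde.symm⟩
    · right
      have h7 : ε = z ^ j * b ε := by
        apply mul_left_cancel₀ hbδ
        rw [hj, ← hbde]
        ring
      have h8 : IsUnit (b ε) := by
        refine hcop.isUnit_of_dvd' ?_ ⟨b δ, by rw [← hbde]; ring⟩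
        have h9 : b ε ∣ ε := ⟨z ^ j, by rw [mul_comm]; exact h7⟩
        exact h9.trans ⟨δ, by rw [hde]; ring⟩
      exact (MulEquiv.isUnit_map b).mp h8

end Pool.Agent.UF
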